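import Mathlib

namespace Pool.Agent.Results.MP_3ec6a8_co.CommonBipartition

/-- Left side: `m` blocks of size `d`, and `r` star centres. -/
abbrev L (d m r : ℕ) : Type := (Fin m × Fin d) ⊕ Fin r

/-- Right side: `m` blocks of size `d`, and `r * d` leaves. -/
abbrev R (d m r : ℕ) : Type := (Fin m × Fin d) ⊕ (Fin r × Fin d)

/-- The bipartite relation: block `j` is completely joined to block `σ j`, centre `s` to its leaves. -/
def rel {d m r : ℕ} (σ : Equiv.Perm (Fin m)) : L d m r → R d m r → Prop
  | Sum.inl a, Sum.inl b => b.1 = σ a.1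
  | Sum.inr s, Sum.inr b => b.1 = s
  | _, _ => False

/-- The bipartite graph of the relation. -/
def gr {d m r : ℕ} (σ : Equiv.Perm (Fin m)) : SimpleGraph (L d m r ⊕ R d m r) where
  Adj u v := match u, v with
    | Sum.inl a, Sum.inr b => rel σ a b
    | Sum.inr b, Sum.inl a => rel σ a b
    | _, _ => False
  symm := ⟨by
    rintro (a | b) (a' | b') h
    · exact h
    · exact h
    · exact h
    · exact h⟩
  loopless := ⟨by rintro (a | b) h <;> exact h⟩

variable {d m r : ℕ}

lemma gr_bip (σ : Equiv.Perm (Fin m)) :
    (gr (d := d) (r := r) σ).IsBipartiteWith (Set.range Sum.inl) (Set.range Sum.inr) where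
  disjoint := Set.isCompl_range_inl_range_inr.disjoint
  mem_of_adj := by
    rintro (a | b) (a' | b') h
    · exact h.elim
    · exact Or.inl ⟨⟨a, rfl⟩, ⟨b', rfl⟩⟩
    · exact Or.inr ⟨⟨b, rfl⟩, ⟨a', rfl⟩⟩
    · exact h.elim

open Classical in
lemma degree_left (σ : Equiv.Perm (Fin m)) (a : L d m r) :
    (gr (d := d) (r := r) σ).degree (Sum.inl a) = d := by
  rcases a with ⟨j, x⟩ | s
  · have : (gr (d := d) (r := r) σ).neighborFinset (Sum.inl (Sum.inl (j, x))) =
        Finset.univ.image (fun y : Fin d => (Sum.inr (Sum.inl (σ j, y)) : L d m r ⊕ R d m r)) := by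
      ext v
      rw [SimpleGraph.mem_neighborFinset, Finset.mem_image]
      constructor
      · intro h
        rcases v with v | (⟨j', y⟩ | v)
        · exact h.elim
        · have h' : j' = σ j := h
          exact ⟨y, Finset.mem_univ _, by rw [h']⟩
        · exact h.elim
      · rintro ⟨y, -, rfl⟩
        exact (rfl : σ j = σ j)
    rw [← SimpleGraph.card_neighborFinset_eq_degree, this,
      Finset.card_image_of_injective _ (by intro y y' h; simpa using h), Finset.card_univ,
      Fintype.card_fin]
  · have : (gr (d := d) (r := r) σ).neighborFinset (Sum.inl (Sum.inr s)) =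
        Finset.univ.image (fun y : Fin d => (Sum.inr (Sum.inr (s, y)) : L d m r ⊕ R d m r)) := by
      ext v
      rw [SimpleGraph.mem_neighborFinset, Finset.mem_image]
      constructor
      · intro h
        rcases v with v | (v | ⟨s', y⟩)
        · exact h.elim
        · exact h.elim
        · have h' : s' = s := h
          exact ⟨y, Finset.mem_univ _, by rw [h']⟩
      · rintro ⟨y, -, rfl⟩
        exact (rfl : s = s)
    rw [← SimpleGraph.card_neighborFinset_eq_degree, this,
      Finset.card_image_of_injective _ (by intro y y' h; simpa using h), Finset.card_univ,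
      Fintype.card_fin]

open Classical in
lemma degree_right (hd : 1 ≤ d) (σ : Equiv.Perm (Fin m)) (b : R d m r) :
    (gr (d := d) (r := r) σ).degree (Sum.inr b) ≤ d := by
  rcases b with ⟨j, x⟩ | ⟨s, x⟩
  · have : (gr (d := d) (r := r) σ).neighborFinset (Sum.inr (Sum.inl (j, x))) ⊆
        Finset.univ.image (fun y : Fin d => (Sum.inl (Sum.inl (σ.symm j, y)) : L d m r ⊕ R d m r)) := by
      intro v
      rw [SimpleGraph.mem_neighborFinset, Finset.mem_image]
      intro h
      rcases v with (⟨j', y⟩ | v) | v
      · have h' : j = σ j' := h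
        exact ⟨y, Finset.mem_univ _, by rw [h', Equiv.symm_apply_apply]⟩
      · exact h.elim
      · exact h.elim
    rw [← SimpleGraph.card_neighborFinset_eq_degree]
    refine (Finset.card_le_card this).trans (Finset.card_image_le.trans ?_)
    rw [Finset.card_univ, Fintype.card_fin]
  · have : (gr (d := d) (r := r) σ).neighborFinset (Sum.inr (Sum.inr (s, x))) ⊆
        {(Sum.inl (Sum.inr s) : L d m r ⊕ R d m r)} := by
      intro v
      rw [SimpleGraph.mem_neighborFinset, Finset.mem_singleton]
      intro h
      rcases v with (v | s') | v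
      · exact h.elim
      · have h' : s = s' := h
        rw [h']
      · exact h.elim
    rw [← SimpleGraph.card_neighborFinset_eq_degree]
    refine (Finset.card_le_card this).trans ?_
    rw [Finset.card_singleton]
    exact hd

open Classical in
lemma maxDeg (hd : 1 ≤ d) (σ : Equiv.Perm (Fin m)) :
    (gr (d := d) (r := r) σ).maxDegree ≤ d := by
  apply SimpleGraph.maxDegree_le_of_forall_degree_le
  rintro (a | b)
  · exact (degree_left σ a).le
  · exact degree_right hd σ b

open Classical in
lemma edges (σ : Equiv.Perm (Fin m)) :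
    (gr (d := d) (r := r) σ).edgeFinset.card = (m * d + r) * d := by
  have h := SimpleGraph.isBipartiteWith_sum_degrees_eq_card_edges
    (G := gr (d := d) (r := r) σ)
    (s := (Finset.univ : Finset (L d m r)).map Function.Embedding.inl)
    (t := (Finset.univ : Finset (R d m r)).map Function.Embedding.inr)
    (by
      have := gr_bip (d := d) (r := r) σ
      simpa using this)
  rw [← h, Finset.sum_map]
  refine (Finset.sum_congr rfl (fun a _ => degree_left σ a)).trans ?_
  rw [Finset.sum_const, Finset.card_univ, smul_eq_mul]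
  congr 1
  simp

lemma const_of_rotate {n : ℕ} (x : Fin (n + 1) → ℕ)
    (h : ∀ j, x (finRotate (n + 1) j) = x j) (j : Fin (n + 1)) : x j = x 0 := by
  induction j using Fin.induction with
  | zero => rfl
  | succ i ih =>
    have := h i.castSucc
    rw [finRotate_apply, Fin.coeSucc_eq_succ] at this
    rw [this, ih]

open Classical in
/-- For all `d ≥ 1` and `m ≥ r + 2` there are `k = m * d + r` graphs with one common bipartition,
of maximum degree at most `d`, each with `k * d` edges, that have no rainbow matching. -/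
theorem result (d m r : ℕ) (hd : 1 ≤ d) (hm : r + 2 ≤ m) :
    ∃ (V : Type) (_ : Fintype V) (X Y : Set V) (F : Fin (m * d + r) → SimpleGraph V),
      (∀ i, (F i).IsBipartiteWith X Y) ∧
      (∀ i, (F i).maxDegree ≤ d) ∧
      (∀ i, (F i).edgeFinset.card = (m * d + r) * d) ∧
      ¬ ∃ e : Fin (m * d + r) → Sym2 V,
          (∀ i, e i ∈ (F i).edgeSet) ∧ ∀ i j, i ≠ j → ∀ v, v ∈ e i → v ∉ e j := by
  obtain ⟨n, rfl⟩ : ∃ n, m = n + 1 := ⟨m - 1, by omega⟩
  set k := (n + 1) * d + r with hk
  -- the first `r + 1` graphs are of the first kind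
  let ρ : Fin k → Equiv.Perm (Fin (n + 1)) :=
    fun i => if i.val < r + 1 then Equiv.refl _ else finRotate (n + 1)
  refine ⟨L d (n + 1) r ⊕ R d (n + 1) r, inferInstance, Set.range Sum.inl, Set.range Sum.inr,
    fun i => gr (ρ i), fun i => gr_bip (ρ i), fun i => maxDeg hd (ρ i),
    fun i => edges (ρ i), ?_⟩
  rintro ⟨e, he, hdis⟩
  -- endpoints
  have hends : ∀ i, ∃ a : L d (n + 1) r, ∃ b : R d (n + 1) r,
      e i = s(Sum.inl a, Sum.inr b) ∧ rel (ρ i) a b := by
    intro i
    have h := he i
    generalize e i = z at h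
    induction z with
    | _ u v =>
      rw [SimpleGraph.mem_edgeSet] at h
      rcases u with a | b <;> rcases v with a' | b'
      · exact h.elim
      · exact ⟨a, b', rfl, h⟩
      · exact ⟨a', b, Sym2.eq_swap, h⟩
      · exact h.elim
  choose a b hab hrel using hends
  have ha : Function.Injective a := by
    intro i j hij
    by_contra hne
    apply hdis i j hne (Sum.inl (a i))
    · rw [hab i]; exact Sym2.mem_mk_left _ _
    · rw [hab j, hij]; exact Sym2.mem_mk_left _ _
  have hb : Function.Injective b := by
    intro i j hij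
    by_contra hne
    apply hdis i j hne (Sum.inr (b i))
    · rw [hab i]; exact Sym2.mem_mk_right _ _
    · rw [hab j, hij]; exact Sym2.mem_mk_right _ _
  have ha' : Function.Bijective a := by
    rw [Fintype.bijective_iff_injective_and_card]
    refine ⟨ha, ?_⟩
    simp [hk]
  -- the index sets
  let S : Fin (n + 1) → Finset (Fin k) := fun j => Finset.univ.filter fun i => ∃ x, a i = Sum.inl (j, x)
  let T : Fin (n + 1) → Finset (Fin k) := fun j => Finset.univ.filter fun i => ∃ x, b i = Sum.inl (j, x)
  let E : Finset (Fin k) := Finset.univ.filter fun i => i.val < r + 1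
  have hS : ∀ j, (S j).card = d := by
    intro j
    have : (S j).card = (Finset.univ : Finset (Fin d)).card := by
      symm
      refine Finset.card_bij (fun x _ => (Equiv.ofBijective a ha').symm (Sum.inl (j, x))) ?_ ?_ ?_
      · intro x _
        simp only [S, Finset.mem_filter, Finset.mem_univ, true_and]
        exact ⟨x, Equiv.ofBijective_apply_symm_apply a ha' _⟩
      · intro x _ y _ h
        have := (Equiv.ofBijective a ha').symm.injective h
        simpa using this
      · intro i hi
        simp only [S, Finset.mem_filter, Finset.mem_univ, true_and] at hi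
        obtain ⟨x, hx⟩ := hi
        refine ⟨x, Finset.mem_univ _, ?_⟩
        rw [← hx]
        exact Equiv.ofBijective_symm_apply_apply a ha' i
    rw [this, Finset.card_univ, Fintype.card_fin]
  have hT : ∀ j, (T j).card ≤ d := by
    intro j
    have : (T j).image b ⊆ Finset.univ.image (fun x : Fin d => (Sum.inl (j, x) : R d (n + 1) r)) := by
      intro z hz
      rw [Finset.mem_image] at hz
      obtain ⟨i, hi, rfl⟩ := hz
      simp only [T, Finset.mem_filter, Finset.mem_univ, true_and] at hi
      obtain ⟨x, hx⟩ := hi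
      rw [Finset.mem_image]
      exact ⟨x, Finset.mem_univ _, hx.symm⟩
    have h2 := Finset.card_le_card this
    rw [Finset.card_image_of_injective _ hb] at h2
    refine h2.trans (Finset.card_image_le.trans ?_)
    rw [Finset.card_univ, Fintype.card_fin]
  -- first kind
  have h1 : ∀ j, (S j) ∩ E ⊆ (T j) ∩ E := by
    intro j i hi
    simp only [S, T, E, Finset.mem_inter, Finset.mem_filter, Finset.mem_univ, true_and] at hi ⊢
    obtain ⟨⟨x, hx⟩, hi2⟩ := hi
    refine ⟨?_, hi2⟩
    have hr := hrel i
    rw [hx] at hr
    rcases hbi : b i with ⟨j', y⟩ | z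
    · rw [hbi] at hr
      have hr' : j' = ρ i j := hr
      have : ρ i = Equiv.refl _ := if_pos hi2
      rw [this] at hr'
      exact ⟨y, by rw [hr']; rfl⟩
    · rw [hbi] at hr
      exact hr.elim
  have h1' : ∀ j, (T j) ∩ E ⊆ (S j) ∩ E := by
    intro j i hi
    simp only [S, T, E, Finset.mem_inter, Finset.mem_filter, Finset.mem_univ, true_and] at hi ⊢
    obtain ⟨⟨x, hx⟩, hi2⟩ := hi
    refine ⟨?_, hi2⟩
    have hr := hrel i
    rw [hx] at hr
    rcases hai : a i with ⟨j', y⟩ | z
    · rw [hai] at hr
      have hr' : j = ρ i j' := hr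
      have : ρ i = Equiv.refl _ := if_pos hi2
      rw [this] at hr'
      exact ⟨y, by rw [hr']; rfl⟩
    · rw [hai] at hr
      exact hr.elim
  -- second kind
  have h2 : ∀ j, (S j) \ E ⊆ (T (finRotate (n + 1) j)) \ E := by
    intro j i hi
    simp only [S, T, E, Finset.mem_sdiff, Finset.mem_filter, Finset.mem_univ, true_and] at hi ⊢
    obtain ⟨⟨x, hx⟩, hi2⟩ := hi
    refine ⟨?_, hi2⟩
    have hr := hrel i
    rw [hx] at hr
    rcases hbi : b i with ⟨j', y⟩ | z
    · rw [hbi] at hr
      have hr' : j' = ρ i j := hr
      have : ρ i = finRotate (n + 1) := if_neg hi2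
      rw [this] at hr'
      exact ⟨y, by rw [hr']⟩
    · rw [hbi] at hr
      exact hr.elim
  let x : Fin (n + 1) → ℕ := fun j => ((S j) ∩ E).card
  have hxle : ∀ j, x (finRotate (n + 1) j) ≤ x j := by
    intro j
    have e1 := Finset.card_le_card (h1 (finRotate (n + 1) j))
    have e2 := Finset.card_le_card (h2 j)
    have e3 := Finset.card_inter_add_card_sdiff (T (finRotate (n + 1) j)) E
    have e4 := Finset.card_inter_add_card_sdiff (S j) E
    have e5 := hT (finRotate (n + 1) j)
    have e6 := hS j
    simp only [x]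
    omega
  have hxsum : ∑ j, x (finRotate (n + 1) j) = ∑ j, x j := Equiv.sum_comp (finRotate (n + 1)) x
  have hxeq : ∀ j, x (finRotate (n + 1) j) = x j := by
    have := (Finset.sum_eq_sum_iff_of_le (s := Finset.univ) (fun j _ => hxle j)).1 hxsum
    exact fun j => this j (Finset.mem_univ j)
  have hconst := const_of_rotate x hxeq
  have hsum : ∑ j, x j = (n + 1) * x 0 := by
    rw [Finset.sum_congr rfl (fun j _ => hconst j), Finset.sum_const, Finset.card_univ,
      Fintype.card_fin, smul_eq_mul]
  -- the union of the `S j ∩ E`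
  have hdisj : ∀ i ∈ (Finset.univ : Finset (Fin (n + 1))), ∀ j ∈ (Finset.univ : Finset (Fin (n + 1))),
      i ≠ j → Disjoint ((S i) ∩ E) ((S j) ∩ E) := by
    intro i _ j _ hij
    rw [Finset.disjoint_left]
    intro t ht ht'
    simp only [S, Finset.mem_inter, Finset.mem_filter, Finset.mem_univ, true_and] at ht ht'
    obtain ⟨⟨y, hy⟩, -⟩ := ht
    obtain ⟨⟨y', hy'⟩, -⟩ := ht'
    rw [hy] at hy'
    apply hij
    have := Sum.inl_injective hy'
    exact (Prod.ext_iff.1 this).1
  have hbU : (Finset.univ.biUnion fun j => (S j) ∩ E).card = ∑ j, x j :=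
    Finset.card_biUnion hdisj
  have hE : E.card = r + 1 := by
    have hkr : r + 1 ≤ k := by
      have : n + 1 ≤ (n + 1) * d := Nat.le_mul_of_pos_right _ hd
      omega
    have : E = (Finset.univ : Finset (Fin (r + 1))).map (Fin.castLEEmb hkr) := by
      ext i
      simp only [E, Finset.mem_filter, Finset.mem_univ, true_and, Finset.mem_map]
      constructor
      · intro h
        exact ⟨⟨i.val, h⟩, by ext; rfl⟩
      · rintro ⟨j, rfl⟩
        exact j.2
    rw [this, Finset.card_map, Finset.card_univ, Fintype.card_fin]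
  have hUE : (Finset.univ.biUnion fun j => (S j) ∩ E) ⊆ E := by
    intro t ht
    rw [Finset.mem_biUnion] at ht
    obtain ⟨j, -, hj⟩ := ht
    exact (Finset.mem_inter.1 hj).2
  have hle : (n + 1) * x 0 ≤ r + 1 := by
    rw [← hsum, ← hbU, ← hE]
    exact Finset.card_le_card hUE
  have hx0 : x 0 = 0 := by
    by_contra h0
    have : n + 1 ≤ (n + 1) * x 0 := Nat.le_mul_of_pos_right _ (Nat.pos_of_ne_zero h0)
    omega
  have hempty : (Finset.univ.biUnion fun j => (S j) ∩ E).card = 0 := by
    rw [hbU, hsum, hx0, Nat.mul_zero]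
  -- hence all indices in `E` use star centres, impossible
  have hcent : ∀ i ∈ E, ∃ s : Fin r, a i = Sum.inr s := by
    intro i hi
    rcases hai : a i with ⟨j, y⟩ | s
    · exfalso
      rw [Finset.card_eq_zero] at hempty
      have : i ∈ (Finset.univ.biUnion fun j => (S j) ∩ E) := by
        rw [Finset.mem_biUnion]
        refine ⟨j, Finset.mem_univ _, Finset.mem_inter.2 ⟨?_, hi⟩⟩
        simp only [S, Finset.mem_filter, Finset.mem_univ, true_and]
        exact ⟨y, hai⟩
      rw [hempty] at this
      simp at this
    · exact ⟨s, rfl⟩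
  have himg : E.image a ⊆ Finset.univ.image (fun s : Fin r => (Sum.inr s : L d (n + 1) r)) := by
    intro z hz
    rw [Finset.mem_image] at hz
    obtain ⟨i, hi, rfl⟩ := hz
    obtain ⟨s, hs⟩ := hcent i hi
    rw [Finset.mem_image]
    exact ⟨s, Finset.mem_univ _, hs.symm⟩
  have hfin := Finset.card_le_card himg
  rw [Finset.card_image_of_injective _ ha, hE] at hfin
  have hfin2 : (Finset.univ.image (fun s : Fin r => (Sum.inr s : L d (n + 1) r))).card ≤ r :=
    Finset.card_image_le.trans (by rw [Finset.card_univ, Fintype.card_fin])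
  omega

end Pool.Agent.Results.MP_3ec6a8_co.CommonBipartition
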